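import Mathlib
import Pool.Agent.Run7.h994.PR.Stm

/-!
# Project PK (helper994): `k` polynomials `F + y + u_1, ..., F + y + u_k` with `u_i ≤ H`, `H ≥ B log N`

`F` is an integer polynomial of degree `d ≥ 2` with positive leading coefficient, `k ≥ 1` is arbitrary. Statements; every statement is a
`Prop` with a proof in its docstring. (The case `k = 2` is project PR.)
-/

set_option autoImplicit false

namespace Run7.h994.PK

open Finset Filter Topology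
open Pool.Agent.H373R2.T7 (pz Vz)
open Pool.Agent.TH204.WR (rho hh)
open scoped Polynomial

/-- the product of the polynomials `F + y + u_i` -/
noncomputable def Qk {k : ℕ} (F : ℤ[X]) (y : ℤ) (u : Fin k → ℕ) : ℤ[X] := ∏ i, (F + Polynomial.C (y + (u i : ℤ)))

/-- the number of the residues `n` modulo `p` with `p ∣ ∏ (F(n) + y + u_i)` -/
noncomputable def rk {k : ℕ} (F : ℤ[X]) (y : ℤ) (u : Fin k → ℕ) (p : ℕ) : ℕ := rho (Qk F y u) 0 p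

/-- the truncated singular series of the system -/
noncomputable def gk {k : ℕ} (F : ℤ[X]) (y : ℤ) (u : Fin k → ℕ) (z : ℕ) : ℝ :=
  (∏ p ∈ pz z, (1 - (rk F y u p : ℝ) / p)) / Vz z ^ k

/-- the number of the `1 ≤ n ≤ N` for which all the `F(n) + y + u_i` are primes -/
def Pk {k : ℕ} (F : ℤ[X]) (y : ℕ) (u : Fin k → ℕ) (N : ℕ) : ℕ :=
  #((Icc 1 N).filter (fun n : ℕ => ∀ i, Nat.Prime (F.eval (n : ℤ) + (y + u i : ℕ)).toNat))

/-- the vectors with distinct entries in `[1, H]` -/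
def inj (k H : ℕ) : Finset (Fin k → ℕ) := (Fintype.piFinset (fun _ : Fin k => Icc 1 H)).filter (fun u => Function.Injective u)

/-- the number of the residues `x` modulo `p` with `p ∣ ∏ (x + u_i)` -/
def nuk {k : ℕ} (u : Fin k → ℕ) (p : ℕ) : ℕ := #(univ.image (fun i => u i % p))

/-- the truncated singular series of the prime `k`-tuple `u` -/
noncomputable def twk {k : ℕ} (u : Fin k → ℕ) (w : ℕ) : ℝ := ∏ p ∈ pz w, ((1 - (nuk u p : ℝ) / p) / (1 - 1 / (p : ℝ)) ^ k)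

/-- **UPK**: pointwise upper bound with the sieve product. Proof: as `Run7.h994.PR.up2` (`Pool/Agent/Run7/h994/PR/UP2.lean`, the case `k = 2`)
with `flp (k d)` for the polynomial `Qk F y u` and `t = 0`. -/
def S_UPk (F : ℤ[X]) (k : ℕ) : Prop := ∃ C : ℝ, 1 ≤ C ∧ ∃ κ : ℝ, 0 < κ ∧ κ ≤ 1 / 10 ∧ ∃ N₀ : ℕ, ∀ N : ℕ, N₀ ≤ N → ∃ z : ℕ, 2 ≤ z ∧
  (N : ℝ) ^ κ ≤ z ∧ (z : ℝ) ≤ (N : ℝ) ^ (1 / 10 : ℝ) ∧
  ∀ (y : ℕ) (u : Fin k → ℕ), (Pk F y u N : ℝ) ≤ C * N * (Vz z ^ k * gk F (y : ℕ) u z) + C * (N : ℝ) ^ (3 / 4 : ℝ)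

/-- **AVK**: the first moment over `y` of the truncated singular series. Proof: as the first part of `Run7.h651.PR.av2`
(`Pool/Agent/Run7/h651/PR/AV2.lean`, the case `k = 2`, for a single `h`): `flp (k d)` for `Qk F y u`, `t = 0`, `n ≤ A` from below (if `rho = p`
for some `p ≤ w` then the truncated series is zero), and for fixed `n` from above `flp k` for `∏ (X + C (F(n) + u_i))` on the `y ≤ A`: the
density is `∏ (1 - nuk u p / p)` (`rho = nuk u p`; if `nuk u p = p` the number of the `y` is `0`). The relative errors are `2 (1/2)^b`. -/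
def S_AVk (F : ℤ[X]) (k : ℕ) : Prop := ∀ (E : ℕ) (η : ℝ), 0 < η → ∃ A₀ : ℕ, ∀ A : ℕ, A₀ ≤ A → ∀ w : ℕ, Real.log A ≤ w →
  (w : ℝ) ≤ Real.log A ^ E → ∀ u : Fin k → ℕ,
  ∑ y ∈ Icc 1 A, gk F (y : ℕ) u w ≤ (1 + η) * (A * twk u w)

/-- **GALK**: the average of the truncated singular series of the prime `k`-tuples (upper bound in Gallagher's theorem). Proof. Let
`y₀` be large in terms of `η`, `k` (`y₀ ≥ k`). For `w ≤ y₀`: `twk u w` has the period `W = ∏_{p ≤ w} p` in every `u_i`, and its mean over all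
residues is `1` (for every `p` the mean over `u` mod `p` of `1 - nuk u p / p = (1/p) #{x : x + u_i ≠ 0 for all i}` is `(1 - 1/p)^k`); the box
`[1, H]^k` is covered by `(H/W + 1)^k` periods. In general, the factor of `p > y₀` is at most `1` if `nuk u p = k` (Bernoulli) and at most
`(1 - 1/p)^(-k) ≤ 1 + C/p` otherwise, and then `p ∣ u_i - u_j` for some `i < j`. So `twk u w ≤ twk u y₀ ∏_{i < j} ∏_{p ∣ u_i - u_j, p > y₀} (1 + C/p)`.
With `K = k (k-1)/2` and the inequality between the arithmetic and the geometric mean the second product minus `1` is at most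
`(1/K) ∑_{i<j} (∏_{p ∣ u_i - u_j, p > y₀} (1 + C'/p) - 1)`, `1 + C'/p ≥ (1 + C/p)^K`; the average over `u_i, u_j ≤ H`, `u_i ≠ u_j` of the last
term is at most `∑ over squarefree D > 1 with prime factors > y₀ of ∏_{p ∣ D} (C'/p) · 2/D`, which tends to `0` as `y₀ → ∞`
(`∏_{p > y₀} (1 + 2 C'/p²) - 1`), and `twk u y₀ ≤ C (log y₀)^k`, better: `≤ ∏_{p ≤ y₀} (1 - 1/p)^(-k)`; choose first a bound in terms of
`∑_{p > y₀} 1/p² ≤ 1/y₀` and `∏_{p ≤ y₀} (1 - 1/p)^(-1) ≤ C log y₀`. -/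
def S_GALk (k : ℕ) : Prop := ∀ η : ℝ, 0 < η → ∃ H₀ : ℕ, ∀ H : ℕ, H₀ ≤ H → ∀ w : ℕ, 2 ≤ w →
  ∑ u ∈ inj k H, twk u w ≤ (1 + η) * (H : ℝ) ^ k

/-- **DIV**: averages of products over the prime divisors of the differences. Proof: as in GALK (AM-GM over the pairs, then expand). -/
def S_DIVk (k : ℕ) : Prop := ∀ C : ℝ, 0 ≤ C → ∃ C' : ℝ, 1 ≤ C' ∧ ∀ H : ℕ, 1 ≤ H → ∀ w : ℕ,
  ∑ u ∈ inj k H, ∏ p ∈ (pz w).filter (fun p => nuk u p < k), (1 + C / (p : ℝ)) ≤ C' * (H : ℝ) ^ k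

/-- **SQK**: the second moment (from DIV). Proof: as `Run7.h973.PR.sq2` (`Pool/Agent/Run7/h973/PR/SQ2.lean`, the case `k = 2`). Reduction to
`w₀ ≤ (log A) / 8` with `(Vz w₀ / Vz w)^k ≤ K^k`. Period `W = ∏_{p ≤ w₀} p ≤ A`, CRT (`crt_prod`). Local factor: `∑_{y mod p} rk F y u p = p nuk u p`
(for every `n` there are `nuk u p` values `y`), `rk ≤ k d` for large `p`, so `∑_y (1 - rk / p)² ≤ p - 2 ν + k d ν / p`, `ν = nuk u p`, and divided by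
`(1 - 1/p)^(2k)` this is `≤ p (1 + C / p²)` for `ν = k` and `≤ p (1 + C / p)` for `ν < k`; small `p`: `≤ C p`. So for fixed `u` the sum over
`y ≤ A` is at most `C A ∏_{p ≤ w₀, nuk u p < k} (1 + C / p)`, then DIV. -/
def S_SQk (F : ℤ[X]) (k : ℕ) : Prop := ∀ E : ℕ, ∃ C : ℝ, 1 ≤ C ∧ ∃ A₀ : ℕ, ∀ A : ℕ, A₀ ≤ A → ∀ w : ℕ, 2 ≤ w →
  (w : ℝ) ≤ Real.log A ^ E → ∀ H : ℕ, 1 ≤ H →
  ∑ u ∈ inj k H, ∑ y ∈ Icc 1 A, (gk F (y : ℕ) u w) ^ 2 ≤ C * (A * (H : ℝ) ^ k)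

/-- **UPN**: for fixed `m` (the value `F(n)`): the upper bound for the number of the `y ≤ A` for which all the `m + y + u_i` are primes, by
`flp k` for `∏ (X + C (m + u_i))` on `1 ≤ y ≤ A`, `t = 0`. -/
def S_UPn (k : ℕ) : Prop := ∃ C : ℝ, 1 ≤ C ∧ ∃ κ : ℝ, 0 < κ ∧ κ ≤ 1 / 10 ∧ ∃ A₀ : ℕ, ∀ A : ℕ, A₀ ≤ A → ∃ z : ℕ, 2 ≤ z ∧
  (A : ℝ) ^ κ ≤ z ∧ (z : ℝ) ≤ (A : ℝ) ^ (1 / 10 : ℝ) ∧
  ∀ (m : ℤ) (u : Fin k → ℕ), (#((Icc 1 A).filter (fun y : ℕ => ∀ i, Nat.Prime (m + (y + u i : ℕ)).toNat)) : ℝ) ≤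
    C * A * (Vz z ^ k * twk u z) + C * (A : ℝ) ^ (3 / 4 : ℝ)

/-- **FMK**: the lower bound for the systems, on average, from the first moment with exponent `e` (power mean inequality for the numbers of the
primes in the windows `F(n) + y < p ≤ F(n) + y + H`). -/
def S_FMk (F : ℤ[X]) (k : ℕ) (e : ℝ) : Prop := ∀ η : ℝ, 0 < η → ∃ c₀ B : ℝ, 0 < c₀ ∧ 0 < B ∧ ∀ ε : ℝ, 0 < ε → ∃ N₀ : ℕ,
  ∀ N : ℕ, N₀ ≤ N → ∀ A H : ℕ, (N : ℝ) ^ (e + ε) ≤ A → (A : ℝ) ≤ c₀ * (N : ℝ) ^ (F.natDegree - 1) →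
  B * Real.log N ≤ H → (H : ℝ) ≤ c₀ * A →
  (1 - η) * (A * (H : ℝ) ^ k * (N / (F.natDegree * Real.log N) ^ k)) ≤
    ∑ u ∈ inj k H, ∑ y ∈ Icc 1 A, (Pk F y u N : ℝ)

end Run7.h994.PK
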